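import Pool.Agent.Helper4.P11.StD
import Pool.Agent.Helper84.P11.D1

/-!
# Project P11 (levels `11^n`), module Stp: combinations of words of Hecke operators and their rows

Adapted from `Pool/Agent/Helper63/T7/M_Stp.lean`; here words are lists of primes.
-/

set_option autoImplicit false

namespace Pool.Agent.Helper53.P11

open Pool.Agent.Helper4.P11
open Pool.Agent.Helper84.P11
open Pool.Agent.Helper14.CV (Homog EqC act Tl)
open Pool.Agent.Helper28.WK (SymP Tw)
open Pool.Agent.Helper2.P11 (pf11 u1P u2P v1P v2P)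

/-! ### Symbols -/

private lemma sp_zero (r s : ℕ) : SymP 11 r s (0 : ℤ → ℤ → ZMod 11) := by
  refine ⟨fun k p q _ _ => rfl, fun a b c d _ _ _ => ⟨0, fun p q _ => ?_⟩⟩
  simp [act]

private lemma sp_add {r s : ℕ} {G H : ℤ → ℤ → ZMod 11} (hG : SymP 11 r s G) (hH : SymP 11 r s H) :
    SymP 11 r s (G + H) := by
  refine ⟨fun k p q hk hp => ?_, fun a b c d h1 h2 h3 => ?_⟩
  · simp only [Pi.add_apply]
    rw [hG.1 k p q hk hp, hH.1 k p q hk hp]
  · obtain ⟨e, he⟩ := hG.2 a b c d h1 h2 h3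
    obtain ⟨e', he'⟩ := hH.2 a b c d h1 h2 h3
    refine ⟨e + e', fun p q hp => ?_⟩
    have h4 := he p q hp
    have h5 := he' p q hp
    simp only [act, Pi.add_apply] at h4 h5 ⊢
    rw [h4, h5]
    ring

private lemma sp_smul {r s : ℕ} (n : ℤ) {G : ℤ → ℤ → ZMod 11} (hG : SymP 11 r s G) :
    SymP 11 r s (n • G) := by
  refine ⟨fun k p q hk hp => ?_, fun a b c d h1 h2 h3 => ?_⟩
  · simp only [Pi.smul_apply]
    rw [hG.1 k p q hk hp]
  · obtain ⟨e, he⟩ := hG.2 a b c d h1 h2 h3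
    refine ⟨n • e, fun p q hp => ?_⟩
    have h4 := he p q hp
    simp only [act, Pi.smul_apply] at h4 ⊢
    rw [h4, smul_add]

/-! ### Plane functions -/

section

variable {r s : ℕ}

private lemma pf_add (G H : ℤ → ℤ → ZMod 11) (i : Fin 3) :
    (pf11 (G + H) i : Fn11 (11 ^ r) (11 ^ s)) = pf11 G i + pf11 H i := by
  funext x y
  simp only [pf11, edge11, Pi.add_apply]
  ring

private lemma pf_smul (n : ℤ) (G : ℤ → ℤ → ZMod 11) (i : Fin 3) :
    (pf11 (n • G) i : Fn11 (11 ^ r) (11 ^ s)) = ((n : ℤ) : ZMod 11) • pf11 G i := by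
  funext x y
  simp only [pf11, edge11, Pi.smul_apply, smul_eq_mul, zsmul_eq_mul]
  ring

private lemma pf_nil (i : Fin 3) : (pf11 (0 : ℤ → ℤ → ZMod 11) i : Fn11 (11 ^ r) (11 ^ s)) = 0 := by
  funext x y
  simp only [pf11, edge11, Pi.zero_apply, sub_zero]

private lemma pf_zero (H : ℤ → ℤ → ZMod 11) : (pf11 H 0 : Fn11 (11 ^ r) (11 ^ s)) 0 0 = H 1 0 - H 0 1 := by
  have hY : rY11 0 (0 : ZMod (11 ^ r)) (0 : ZMod (11 ^ s)) = 0 := by
    unfold rY11
    simp
  unfold pf11 edge11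
  rw [hY]
  simp [u1P, u2P, v1P, v2P]

private lemma opL_nil : (opL [] : Module.End (ZMod 11) (Fn11 (11 ^ r) (11 ^ s))) = 0 := rfl

private lemma opL_one (F : Fn11 (11 ^ r) (11 ^ s)) : opL [(1, 1, 0, 0, 1)] F = F := by
  have h : (opL [(1, 1, 0, 0, 1)] : Module.End (ZMod 11) (Fn11 (11 ^ r) (11 ^ s))) = op11 1 0 0 1 := by
    unfold opL
    rw [List.map_cons, List.map_nil, List.sum_cons, List.sum_nil, add_zero, Int.cast_one, one_smul]
  rw [h]
  exact (trm (ZMod 11) r s F).2.1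

end

/-! ### Words -/

/-- All entries of a matrix of lists are good. -/
private def GG (A : Fin 3 → Fin 3 → List Tm) : Prop := ∀ i f, ∀ t ∈ A i f, Gd t

private lemma gg_id : GG id3 := by
  intro i f t ht
  unfold id3 at ht
  split_ifs at ht
  · rw [List.mem_singleton] at ht
    subst ht
    exact ⟨by norm_num, by norm_num⟩
  · simp at ht

private lemma gg_mm {A B : Fin 3 → Fin 3 → List Tm} (hA : GG A) (hB : GG B) : GG (mm3 A B) := by
  intro i f t ht
  unfold mm3 at ht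
  rcases List.mem_append.1 ht with h | h
  · rcases List.mem_append.1 h with h | h
    · exact ((opm 0 0).1 (A i 0) (B 0 f) (hA i 0) (hB 0 f)).1 t h
    · exact ((opm 0 0).1 (A i 1) (B 1 f) (hA i 1) (hB 1 f)).1 t h
  · exact ((opm 0 0).1 (A i 2) (B 2 f) (hA i 2) (hB 2 f)).1 t h

private lemma op_mm {r s : ℕ} {A B : Fin 3 → Fin 3 → List Tm} (hA : GG A) (hB : GG B) (i f : Fin 3) :
    (opL (mm3 A B i f) : Module.End (ZMod 11) (Fn11 (11 ^ r) (11 ^ s))) =
      ∑ g : Fin 3, opL (A i g) * opL (B g f) := by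
  have hm : ∀ g, (opL (mulL (A i g) (B g f)) : Module.End (ZMod 11) (Fn11 (11 ^ r) (11 ^ s))) =
      opL (A i g) * opL (B g f) := fun g => ((opm r s).1 (A i g) (B g f) (hA i g) (hB g f)).2
  unfold mm3
  rw [(opm r s).2.2, (opm r s).2.2, hm, hm, hm, Fin.sum_univ_three]

private lemma rows_id {r s : ℕ} (G : ℤ → ℤ → ZMod 11) (i : Fin 3) :
    (pf11 G i : Fn11 (11 ^ r) (11 ^ s)) = ∑ f : Fin 3, opL (id3 i f) (pf11 G f) := by
  have h2 : ∀ g, g ≠ i → (opL (id3 i g) : Module.End (ZMod 11) (Fn11 (11 ^ r) (11 ^ s))) (pf11 G g) = 0 := by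
    intro g hg
    rw [show id3 i g = [] from if_neg (Ne.symm hg)]
    rfl
  rw [Finset.sum_eq_single i (fun g _ hg => h2 g hg) (fun h => absurd (Finset.mem_univ i) h),
    show id3 i i = [(1, 1, 0, 0, 1)] from if_pos rfl, opL_one]

private lemma prm_prime {l : ℕ} (h : l ∈ PrM) : l.Prime ∧ l ≠ 11 := by
  unfold PrM at h
  simp only [List.mem_cons, List.not_mem_nil, or_false] at h
  rcases h with h | h | h | h | h | h | h | h | h | h | h | h | h <;> subst h <;> norm_num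

private lemma word (hk : THk) (hg : TCeG) (r s : ℕ) : ∀ w : List ℕ, (∀ l ∈ w, l ∈ PrM) →
    GG (wL w) ∧ ∀ G : ℤ → ℤ → ZMod 11, SymP 11 r (s + 1) G →
      SymP 11 r (s + 1) (Tw ((11 : ℤ) ^ r) w G) ∧
      ∀ i : Fin 3, (pf11 (Tw ((11 : ℤ) ^ r) w G) i : Fn11 (11 ^ r) (11 ^ s)) =
        ∑ f : Fin 3, opL (wL w i f) (pf11 G f)
  | [], _ => by
    refine ⟨gg_id, fun G hG => ⟨hG, fun i => ?_⟩⟩
    exact rows_id G i
  | [l], h => by
    have hl : l ∈ PrM := h l List.mem_cons_self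
    obtain ⟨hp, h11⟩ := prm_prime hl
    refine ⟨fun i f t ht => hg.1 l hl i f t ht, fun G hG => ⟨?_, fun i => ?_⟩⟩
    · exact (hkB (ZMod 11) _ r (s + 1) l G hp h11 hG).1
    · exact hk l hl r s G hG i
  | l :: l' :: ls, h => by
    have hl : l ∈ PrM := h l List.mem_cons_self
    obtain ⟨hp, h11⟩ := prm_prime hl
    obtain ⟨ih1, ih2⟩ := word hk hg r s (l' :: ls) (fun x hx => h x (List.mem_cons_of_mem _ hx))
    have hA : GG (TM l) := fun i f t ht => hg.1 l hl i f t ht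
    refine ⟨gg_mm hA ih1, fun G hG => ?_⟩
    obtain ⟨b1, b2⟩ := ih2 G hG
    refine ⟨(hkB (ZMod 11) _ r (s + 1) l _ hp h11 b1).1, fun i => ?_⟩
    have e1 : (pf11 (Tw ((11 : ℤ) ^ r) (l :: l' :: ls) G) i : Fn11 (11 ^ r) (11 ^ s)) =
        ∑ f : Fin 3, opL (TM l i f) (pf11 (Tw ((11 : ℤ) ^ r) (l' :: ls) G) f) := hk l hl r s _ b1 i
    rw [e1]
    have e2 : ∀ f : Fin 3, (opL (wL (l :: l' :: ls) i f) : Module.End (ZMod 11) (Fn11 (11 ^ r) (11 ^ s))) =
        ∑ g : Fin 3, opL (TM l i g) * opL (wL (l' :: ls) g f) := fun f => op_mm hA ih1 i f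
    simp only [b2, e2, LinearMap.sum_apply, Module.End.mul_apply, map_sum]
    exact Finset.sum_comm

/-! ### Combinations -/

theorem hStp (hk : THk) (hg : TCeG) : TStp := by
  intro r s G hG
  refine ⟨fun W => ?_, fun H => pf_zero H⟩
  induction W with
  | nil =>
    intro _
    refine ⟨sp_zero _ _, fun i => ?_⟩
    have h1 : (cO [] ((11 : ℤ) ^ r) G) = 0 := rfl
    have h2 : ∀ f, (opL (cL [] i f) : Module.End (ZMod 11) (Fn11 (11 ^ r) (11 ^ s))) (pf11 G f) = 0 := fun f => rfl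
    rw [h1, pf_nil]
    simp only [h2, Finset.sum_const_zero]
  | cons t W ih =>
    intro h
    obtain ⟨a1, a2⟩ := ih (fun u hu => h u (List.mem_cons_of_mem _ hu))
    obtain ⟨_, c2⟩ := word hk hg r s t.2 (h t List.mem_cons_self)
    obtain ⟨b1, b2⟩ := c2 G hG
    have e1 : cO (t :: W) ((11 : ℤ) ^ r) G = t.1 • Tw ((11 : ℤ) ^ r) t.2 G + cO W ((11 : ℤ) ^ r) G := by
      unfold cO
      rw [List.map_cons, List.sum_cons]
    have e2 : ∀ i f, cL (t :: W) i f = sclL t.1 (wL t.2 i f) ++ cL W i f := by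
      intro i f
      unfold cL
      rw [List.flatMap_cons]
    refine ⟨?_, fun i => ?_⟩
    · rw [e1]
      exact sp_add (sp_smul _ b1) a1
    · rw [e1, pf_add, pf_smul, a2, b2]
      simp only [e2, (opm r s).2.2, (opm r s).2.1, LinearMap.add_apply, LinearMap.smul_apply,
        Finset.sum_add_distrib, Finset.smul_sum]

end Pool.Agent.Helper53.P11
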