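import Pool.Agent.Helper76.P11.StC

/-!
# Project P11 (levels `11^n`), module E1A: even exponent, the nine plane functions of a balanced new symbol

The first part follows `Pool/Agent/Helper9/S7/M_E1.lean`.
-/

set_option autoImplicit false

namespace Pool.Agent.Helper53.P11

open Pool.Agent.Helper76.P11
open Pool.Agent.Helper84.P11 (Pl11 rY11 edge11 S11PlA S11PlU S11Edg)
open Pool.Agent.Helper14.CV (Homog EqC act ne_zero_of_det)
open Pool.Agent.Helper28.WK (SymP)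

private lemma z1 (j : ℕ) : (11 : ZMod (11 ^ (j + 1))) ^ (j + 1) = 0 := by
  have h := ZMod.natCast_self (11 ^ (j + 1))
  push_cast at h
  exact h

private lemma z2 (j : ℕ) : (11 : ZMod (11 ^ (j + 1))) ^ (j + 2) = 0 := by
  rw [pow_succ (11 : ZMod (11 ^ (j + 1))) (j + 1), z1, zero_mul]

/-- `α + 121 γ x` is a unit -/
private lemma un (j : ℕ) {α β γ δ : ℤ} (h : α * δ - 121 * β * γ = 1) (x : ZMod (11 ^ (j + 1))) :
    IsUnit ((α : ZMod (11 ^ (j + 1))) + 11 ^ (1 + 1) * γ * x) := by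
  obtain ⟨X, rfl⟩ := ZMod.intCast_surjective x
  have : IsUnit (((α + 11 ^ (1 + 1) * γ * X : ℤ) : ZMod (11 ^ (j + 1)))) := by
    rw [ZMod.coe_int_isUnit_iff_isCoprime]
    push_cast
    exact IsCoprime.pow_left ⟨-11 * (β * γ) - 11 * (γ * X * δ), δ, by linear_combination h⟩
  push_cast at this
  have e : (121 : ZMod (11 ^ (j + 1))) = 11 ^ (1 + 1) := by norm_num
  rwa [e] at this

private lemma exM (hPlA : S11PlA) (j : ℕ) (x y : ZMod (11 ^ (j + 1))) :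
    ∃ b c d : ℤ, Pl11 1 1 b c d x y :=
  ⟨_, _, _, hPlA 1 (j + 1) (j + 1) x y⟩

private lemma nz {a b c d : ℤ} (h : a * d - 11 ^ (1 + 1) * b * c = 1) {u1 u2 : ℤ}
    (hu : u1 ≠ 0 ∨ u2 ≠ 0) : a * u1 + 11 ^ 1 * b * u2 ≠ 0 ∨ 11 * c * u1 + d * u2 ≠ 0 :=
  ne_zero_of_det (a := a) (b := 11 ^ 1 * b) (c := 11 * c) (d := d)
    (by intro h0; have : (1 : ℤ) = 0 := by linear_combination h0 - h
        exact absurd this one_ne_zero) hu

/-- the matrix `(1 11^(j+1) i; 0 1) g` -/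
private lemma plT (j : ℕ) (i : ℤ) {b c d : ℤ} {x y : ZMod (11 ^ (j + 1))}
    (h : Pl11 1 1 b c d x y) :
    Pl11 1 (1 + 11 ^ (j + 2) * i * c) (b + 11 ^ j * i * d) c d
      (x + (i : ZMod (11 ^ (j + 1))) * 11 ^ j) y := by
  obtain ⟨h1, h2, h3⟩ := h
  have e : (d : ZMod (11 ^ (j + 1))) = 1 + 121 * b * c := by
    have := congrArg (Int.cast : ℤ → ZMod (11 ^ (j + 1))) h1
    push_cast at this
    linear_combination this
  refine ⟨by linear_combination h1, ?_, h3⟩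
  push_cast at h2 ⊢
  linear_combination h2 + (i : ZMod (11 ^ (j + 1))) * 11 ^ j * e +
    11 * (i : ZMod (11 ^ (j + 1))) * b * c * z1 j -
    (x + i * 11 ^ j) * (i : ZMod (11 ^ (j + 1))) * (c : ZMod (11 ^ (j + 1))) * z2 j

/-- the matrix `(1 0; 11^(j+1) i 1) g` -/
private lemma plL (j : ℕ) (i : ℤ) {b c d : ℤ} {x y : ZMod (11 ^ (j + 1))}
    (h : Pl11 1 1 b c d x y) :
    Pl11 1 1 b (c + 11 ^ j * i) (d + 11 ^ (j + 2) * i * b) x
      (y + (i : ZMod (11 ^ (j + 1))) * 11 ^ j) := by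
  obtain ⟨h1, h2, h3⟩ := h
  have e : (d : ZMod (11 ^ (j + 1))) = 1 + 121 * b * c := by
    have := congrArg (Int.cast : ℤ → ZMod (11 ^ (j + 1))) h1
    push_cast at this
    linear_combination this
  refine ⟨by linear_combination h1, h2, ?_⟩
  push_cast
  linear_combination h3 - (i : ZMod (11 ^ (j + 1))) * 11 ^ j * e -
    11 * (i : ZMod (11 ^ (j + 1))) * b * c * z1 j -
    (y + i * 11 ^ j) * (i : ZMod (11 ^ (j + 1))) * (b : ZMod (11 ^ (j + 1))) * z2 j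

/-- the matrix `g m` -/
private lemma plM {q : ℕ} {a b c d α β γ δ : ℤ} {x y x' y' : ZMod q} (h : Pl11 1 a b c d x y)
    (hm : α * δ - 121 * β * γ = 1)
    (hx : x' * (α + 121 * γ * x) = β + δ * x) (hy : y' * (δ + 121 * β * y) = γ + α * y) :
    Pl11 1 (a * α + 121 * b * γ) (a * β + b * δ) (c * α + d * γ) (121 * c * β + d * δ) x' y' := by
  obtain ⟨h1, h2, h3⟩ := h
  refine ⟨by linear_combination (a * d - 121 * b * c) * hm + h1, ?_, ?_⟩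
  · push_cast
    rw [h2]
    linear_combination -(a : ZMod q) * hx
  · push_cast
    rw [h3]
    linear_combination -(d : ZMod q) * hy

private lemma homm {G : ℤ → ℤ → ℂ} (h : Homog G) {p q : ℤ} (hpq : p ≠ 0 ∨ q ≠ 0) :
    G (-p) (-q) = G p q := by
  have := h (-1) p q (by norm_num) hpq
  rwa [neg_one_mul, neg_one_mul] at this

/-- the value at `g u` -/
private def V (G : ℤ → ℤ → ℂ) (a b c d u1 u2 : ℤ) : ℂ :=
  G (a * u1 + 11 ^ 1 * b * u2) (11 * c * u1 + d * u2)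

section

variable {j : ℕ} {G : ℤ → ℤ → ℂ}

/-- the value of the symbol by any matrix with the given coordinates -/
private lemma ed (hEdg : S11Edg) (hS : SymP 11 (j + 2) (j + 2) G) {u1 u2 v1 v2 : ℤ}
    (hu : u1 ≠ 0 ∨ u2 ≠ 0) (hv : v1 ≠ 0 ∨ v2 ≠ 0) {a b c d : ℤ} {x y : ZMod (11 ^ (j + 1))}
    (h : Pl11 1 a b c d x y) :
    edge11 1 u1 u2 v1 v2 G x y = V G a b c d u1 u2 - V G a b c d v1 v2 :=
  hEdg ℂ _ 1 (j + 1) (j + 1) G hS u1 u2 v1 v2 hu hv x y a b c d h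

private lemma Vneg (hS : SymP 11 (j + 2) (j + 2) G) {a b c d : ℤ} {x y : ZMod (11 ^ (j + 1))}
    (h : Pl11 1 a b c d x y) {u1 u2 : ℤ} (hu : u1 ≠ 0 ∨ u2 ≠ 0) :
    V G a b c d (-u1) (-u2) = V G a b c d u1 u2 := by
  have e := homm hS.1 (nz h.1 hu)
  unfold V
  rw [← e]
  congr 1 <;> ring

private lemma shx (hPlA : S11PlA) (hEdg : S11Edg) (hB : BalE (j + 2) G) {u1 u2 v1 v2 : ℤ}
    (hu : u1 ≠ 0 ∨ u2 ≠ 0) (hv : v1 ≠ 0 ∨ v2 ≠ 0) (x y : ZMod (11 ^ (j + 1))) :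
    ∑ i ∈ Finset.range 11,
      edge11 1 u1 u2 v1 v2 G (x + (i : ZMod (11 ^ (j + 1))) * 11 ^ j) y = 0 := by
  obtain ⟨hS, hT, -, -, -⟩ := hB
  obtain ⟨b, c, d, h⟩ := exM hPlA j x y
  have e := hT.diff (nz h.1 hu) (nz h.1 hv)
  simp only [Finset.sum_apply, act, Pi.zero_apply, sub_zero] at e
  rw [← Finset.sum_sub_distrib] at e
  rw [← e]
  refine Finset.sum_congr rfl fun i _ => ?_
  have g := plT j (i : ℤ) h
  rw [Int.cast_natCast] at g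
  rw [ed hEdg hS hu hv g]
  have ej : j + 2 - 1 = j + 1 := rfl
  unfold V
  rw [ej]
  congr 1 <;> congr 1 <;> ring

private lemma shy (hPlA : S11PlA) (hEdg : S11Edg) (hB : BalE (j + 2) G) {u1 u2 v1 v2 : ℤ}
    (hu : u1 ≠ 0 ∨ u2 ≠ 0) (hv : v1 ≠ 0 ∨ v2 ≠ 0) (x y : ZMod (11 ^ (j + 1))) :
    ∑ i ∈ Finset.range 11,
      edge11 1 u1 u2 v1 v2 G x (y + (i : ZMod (11 ^ (j + 1))) * 11 ^ j) = 0 := by
  obtain ⟨hS, -, hT, -, -⟩ := hB
  obtain ⟨b, c, d, h⟩ := exM hPlA j x y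
  have e := hT.diff (nz h.1 hu) (nz h.1 hv)
  simp only [Finset.sum_apply, act, Pi.zero_apply, sub_zero] at e
  rw [← Finset.sum_sub_distrib] at e
  rw [← e]
  refine Finset.sum_congr rfl fun i _ => ?_
  have g := plL j (i : ℤ) h
  rw [Int.cast_natCast] at g
  rw [ed hEdg hS hu hv g]
  have ej : j + 2 - 1 = j + 1 := rfl
  unfold V
  rw [ej]
  congr 1 <;> congr 1 <;> ring

/-- conjugation by `b = (0 1; 1 0)` -/
private lemma swl (hPlA : S11PlA) (hEdg : S11Edg) (hB : BalE (j + 2) G) {u1 u2 v1 v2 : ℤ}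
    (hu : u1 ≠ 0 ∨ u2 ≠ 0) (hv : v1 ≠ 0 ∨ v2 ≠ 0) (x y : ZMod (11 ^ (j + 1))) :
    edge11 1 u1 u2 v1 v2 G y x = -edge11 1 u2 u1 v2 v1 G x y := by
  obtain ⟨hS, -, -, hW, hT⟩ := hB
  obtain ⟨b, c, d, h⟩ := exM hPlA j x y
  have h' : Pl11 1 d c b 1 y x := by
    obtain ⟨h1, h2, h3⟩ := h
    exact ⟨by linear_combination h1, h3, h2⟩
  have hu' : u2 ≠ 0 ∨ u1 ≠ 0 := hu.symm
  have hv' : v2 ≠ 0 ∨ v1 ≠ 0 := hv.symm
  rw [ed hEdg hS hu' hv' h, ed hEdg hS hu hv h']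
  have e := hW.diff (nz h.1 hu') (nz h.1 hv')
  have nS : ∀ {s t : ℤ}, (s ≠ 0 ∨ t ≠ 0) → (0 * s + -1 * t ≠ 0 ∨ 1 * s + 0 * t ≠ 0) := by
    intro s t hst
    simp only [zero_mul, zero_add, one_mul, add_zero, neg_mul, ne_eq, neg_eq_zero]
    exact hst.symm
  have f := hT.diff (nS (nz h.1 hu')) (nS (nz h.1 hv'))
  simp only [act, Pi.neg_apply] at e f
  rw [← f] at e
  unfold V
  have e1 : ∀ s t : ℤ, -1 * (0 * (1 * t + 11 ^ 1 * b * s) + -1 * (11 * c * t + d * s)) +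
      0 * (1 * (1 * t + 11 ^ 1 * b * s) + 0 * (11 * c * t + d * s)) = d * s + 11 ^ 1 * c * t := by
    intro s t; ring
  have e2 : ∀ s t : ℤ, 0 * (0 * (1 * t + 11 ^ 1 * b * s) + -1 * (11 * c * t + d * s)) +
      1 * (1 * (1 * t + 11 ^ 1 * b * s) + 0 * (11 * c * t + d * s)) = 11 * b * s + 1 * t := by
    intro s t; ring
  rw [e1 u1 u2, e1 v1 v2, e2 u1 u2, e2 v1 v2] at e
  rw [e]
  ring

/-- conjugation by `*` -/
private lemma ngl (hPlA : S11PlA) (hEdg : S11Edg) (hB : BalE (j + 2) G) {u1 u2 v1 v2 : ℤ}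
    (hu : u1 ≠ 0 ∨ u2 ≠ 0) (hv : v1 ≠ 0 ∨ v2 ≠ 0) (x y : ZMod (11 ^ (j + 1))) :
    edge11 1 u1 u2 v1 v2 G (-x) (-y) = edge11 1 (-u1) u2 (-v1) v2 G x y := by
  obtain ⟨hS, -, -, -, hW⟩ := hB
  obtain ⟨b, c, d, h⟩ := exM hPlA j x y
  have h' : Pl11 1 1 (-b) (-c) d (-x) (-y) := by
    obtain ⟨h1, h2, h3⟩ := h
    refine ⟨by linear_combination h1, ?_, ?_⟩
    · push_cast at h2 ⊢; linear_combination -h2
    · push_cast; linear_combination -h3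
  have hu' : -u1 ≠ 0 ∨ u2 ≠ 0 := by rcases hu with h | h <;> [left; right] <;> simpa using h
  have hv' : -v1 ≠ 0 ∨ v2 ≠ 0 := by rcases hv with h | h <;> [left; right] <;> simpa using h
  rw [ed hEdg hS hu' hv' h, ed hEdg hS hu hv h']
  have e := hW.diff (nz h.1 hu') (nz h.1 hv')
  simp only [act] at e
  unfold V
  have e1 : ∀ s t : ℤ, -1 * (1 * -s + 11 ^ 1 * b * t) + 0 * (11 * c * -s + d * t) =
      1 * s + 11 ^ 1 * -b * t := by intro s t; ring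
  have e2 : ∀ s t : ℤ, 0 * (1 * -s + 11 ^ 1 * b * t) + 1 * (11 * c * -s + d * t) =
      11 * -c * s + d * t := by intro s t; ring
  rw [e1 u1 u2, e1 v1 v2, e2 u1 u2, e2 v1 v2] at e
  exact e

/-- multiplication by a matrix on the right -/
private lemma rm (hPlA : S11PlA) (hEdg : S11Edg) (hB : BalE (j + 2) G) {u1 u2 v1 v2 : ℤ}
    (hu : u1 ≠ 0 ∨ u2 ≠ 0) (hv : v1 ≠ 0 ∨ v2 ≠ 0) {α β γ δ : ℤ}
    (hm : α * δ - 121 * β * γ = 1) (p : Pt (j + 1)) :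
    edge11 1 u1 u2 v1 v2 G (trp 1 α β γ δ p).1 (trp 1 α β γ δ p).2 =
      edge11 1 (α * u1 + 11 * β * u2) (11 * γ * u1 + δ * u2) (α * v1 + 11 * β * v2)
        (11 * γ * v1 + δ * v2) G p.1 p.2 := by
  obtain ⟨b, c, d, h⟩ := exM hPlA j p.1 p.2
  have hm' : δ * α - 121 * γ * β = 1 := by linear_combination hm
  have hx : (trp 1 α β γ δ p).1 * ((α : ZMod (11 ^ (j + 1))) + 121 * γ * p.1) = β + δ * p.1 := by
    have := ZMod.inv_mul_of_unit _ (un j hm p.1)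
    unfold trp
    rw [mul_assoc]
    have e : (121 : ZMod (11 ^ (j + 1))) = 11 ^ (1 + 1) := by norm_num
    rw [e, this, mul_one]
  have hy : (trp 1 α β γ δ p).2 * ((δ : ZMod (11 ^ (j + 1))) + 121 * β * p.2) = γ + α * p.2 := by
    have := ZMod.inv_mul_of_unit _ (un j hm' p.2)
    unfold trp
    rw [mul_assoc]
    have e : (121 : ZMod (11 ^ (j + 1))) = 11 ^ (1 + 1) := by norm_num
    rw [e, this, mul_one]
  have h' := plM h hm hx hy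
  have hdet : α * δ - 11 * β * (11 * γ) ≠ 0 := by
    intro h0
    have : (1 : ℤ) = 0 := by linear_combination h0 - hm
    exact absurd this one_ne_zero
  have hu' := ne_zero_of_det (a := α) (b := 11 * β) (c := 11 * γ) (d := δ) hdet hu
  have hv' := ne_zero_of_det (a := α) (b := 11 * β) (c := 11 * γ) (d := δ) hdet hv
  rw [ed hEdg hB.1 hu' hv' h, ed hEdg hB.1 hu hv h']
  unfold V
  congr 1 <;> congr 1 <;> ring

private lemma sw_rw (hPlA : S11PlA) (hEdg : S11Edg) (hB : BalE (j + 2) G) {u1 u2 v1 v2 : ℤ}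
    (hu : u1 ≠ 0 ∨ u2 ≠ 0) (hv : v1 ≠ 0 ∨ v2 ≠ 0) (p : Pt (j + 1)) :
    edge11 1 u1 u2 v1 v2 G (sw p).1 (sw p).2 = -edge11 1 u2 u1 v2 v1 G p.1 p.2 :=
  swl hPlA hEdg hB hu hv p.1 p.2

private lemma ng_rw (hPlA : S11PlA) (hEdg : S11Edg) (hB : BalE (j + 2) G) {u1 u2 v1 v2 : ℤ}
    (hu : u1 ≠ 0 ∨ u2 ≠ 0) (hv : v1 ≠ 0 ∨ v2 ≠ 0) (p : Pt (j + 1)) :
    edge11 1 u1 u2 v1 v2 G (ng p).1 (ng p).2 = edge11 1 (-u1) u2 (-v1) v2 G p.1 p.2 :=
  ngl hPlA hEdg hB hu hv p.1 p.2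

/-- circles: a matrix after `sw` -/
private lemma ci (hPlA : S11PlA) (hEdg : S11Edg) (hB : BalE (j + 2) G) {α β γ δ : ℤ}
    (hm : α * δ - 121 * β * γ = 1) {u1 u2 v1 v2 : ℤ}
    (hu : u1 ≠ 0 ∨ u2 ≠ 0) (hv : v1 ≠ 0 ∨ v2 ≠ 0) (p : Pt (j + 1)) :
    edge11 1 u1 u2 v1 v2 G (trp 1 α β γ δ (sw p)).1 (trp 1 α β γ δ (sw p)).2 =
      -edge11 1 (11 * γ * u1 + δ * u2) (α * u1 + 11 * β * u2) (11 * γ * v1 + δ * v2)
        (α * v1 + 11 * β * v2) G p.1 p.2 := by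
  have hdet : α * δ - 11 * β * (11 * γ) ≠ 0 := by
    intro h0
    have : (1 : ℤ) = 0 := by linear_combination h0 - hm
    exact absurd this one_ne_zero
  rw [rm hPlA hEdg hB hu hv hm (sw p)]
  exact sw_rw hPlA hEdg hB
    (ne_zero_of_det (a := α) (b := 11 * β) (c := 11 * γ) (d := δ) hdet hu)
    (ne_zero_of_det (a := α) (b := 11 * β) (c := 11 * γ) (d := δ) hdet hv) p

private lemma nng {s t : ℤ} (h : s ≠ 0 ∨ t ≠ 0) : -s ≠ 0 ∨ t ≠ 0 := by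
  rcases h with h | h
  · exact Or.inl (neg_ne_zero.2 h)
  · exact Or.inr h

private lemma dne {α β γ δ : ℤ} (hm : α * δ - 121 * β * γ = 1) : α * δ - 11 * β * (11 * γ) ≠ 0 := by
  intro h0
  have : (1 : ℤ) = 0 := by linear_combination h0 - hm
  exact absurd this one_ne_zero

/-- circles: a matrix after `sw` -/
private lemma ciE (hPlA : S11PlA) (hEdg : S11Edg) (hB : BalE (j + 2) G) {α β γ δ : ℤ}
    (hm : α * δ - 121 * β * γ = 1) {u1 u2 v1 v2 : ℤ} (s1 s2 t1 t2 : ℤ)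
    (hu : u1 ≠ 0 ∨ u2 ≠ 0) (hv : v1 ≠ 0 ∨ v2 ≠ 0) (p : Pt (j + 1))
    (e1 : 11 * γ * u1 + δ * u2 = s1) (e2 : α * u1 + 11 * β * u2 = s2)
    (e3 : 11 * γ * v1 + δ * v2 = t1) (e4 : α * v1 + 11 * β * v2 = t2) :
    edge11 1 u1 u2 v1 v2 G (trp 1 α β γ δ (sw p)).1 (trp 1 α β γ δ (sw p)).2 =
      -edge11 1 s1 s2 t1 t2 G p.1 p.2 := by
  subst e1 e2 e3 e4
  exact ci hPlA hEdg hB hm hu hv p

/-- a matrix after `ng` -/
private lemma rgE (hPlA : S11PlA) (hEdg : S11Edg) (hB : BalE (j + 2) G) {α β γ δ : ℤ}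
    (hm : α * δ - 121 * β * γ = 1) {u1 u2 v1 v2 : ℤ} (s1 s2 t1 t2 : ℤ)
    (hu : u1 ≠ 0 ∨ u2 ≠ 0) (hv : v1 ≠ 0 ∨ v2 ≠ 0) (p : Pt (j + 1))
    (e1 : -(α * u1 + 11 * β * u2) = s1) (e2 : 11 * γ * u1 + δ * u2 = s2)
    (e3 : -(α * v1 + 11 * β * v2) = t1) (e4 : 11 * γ * v1 + δ * v2 = t2) :
    edge11 1 u1 u2 v1 v2 G (trp 1 α β γ δ (ng p)).1 (trp 1 α β γ δ (ng p)).2 =
      edge11 1 s1 s2 t1 t2 G p.1 p.2 := by
  subst e1 e2 e3 e4
  have hdet := dne hm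
  rw [rm hPlA hEdg hB hu hv hm (ng p)]
  exact ng_rw hPlA hEdg hB
    (ne_zero_of_det (a := α) (b := 11 * β) (c := 11 * γ) (d := δ) hdet hu)
    (ne_zero_of_det (a := α) (b := 11 * β) (c := 11 * γ) (d := δ) hdet hv) p

/-- a matrix after `ng ∘ sw` -/
private lemma riE (hPlA : S11PlA) (hEdg : S11Edg) (hB : BalE (j + 2) G) {α β γ δ : ℤ}
    (hm : α * δ - 121 * β * γ = 1) {u1 u2 v1 v2 : ℤ} (s1 s2 t1 t2 : ℤ)
    (hu : u1 ≠ 0 ∨ u2 ≠ 0) (hv : v1 ≠ 0 ∨ v2 ≠ 0) (p : Pt (j + 1))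
    (e1 : 11 * γ * u1 + δ * u2 = s1) (e2 : -(α * u1 + 11 * β * u2) = s2)
    (e3 : 11 * γ * v1 + δ * v2 = t1) (e4 : -(α * v1 + 11 * β * v2) = t2) :
    edge11 1 u1 u2 v1 v2 G (trp 1 α β γ δ (ng (sw p))).1 (trp 1 α β γ δ (ng (sw p))).2 =
      -edge11 1 s1 s2 t1 t2 G p.1 p.2 := by
  subst e1 e2 e3 e4
  have hdet := dne hm
  rw [rgE hPlA hEdg hB hm _ _ _ _ hu hv (sw p) rfl rfl rfl rfl]
  exact sw_rw hPlA hEdg hB
    (nng (ne_zero_of_det (a := α) (b := 11 * β) (c := 11 * γ) (d := δ) hdet hu))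
    (nng (ne_zero_of_det (a := α) (b := 11 * β) (c := 11 * γ) (d := δ) hdet hv)) p

private lemma memA (hPlA : S11PlA) (hEdg : S11Edg) (hB : BalE (j + 2) G) {u1 u2 v1 v2 : ℤ}
    (hu : u1 ≠ 0 ∨ u2 ≠ 0) (hv : v1 ≠ 0 ∨ v2 ≠ 0) :
    (fun p : Pt (j + 1) => edge11 1 u1 u2 v1 v2 G p.1 p.2) ∈ anti11 (j + 1) :=
  fun p => ⟨shx hPlA hEdg hB hu hv p.1 p.2, shy hPlA hEdg hB hu hv p.1 p.2⟩

/-- the value at the cusp `u` -/
private noncomputable def W (G : ℤ → ℤ → ℂ) {m : ℕ} (p : Pt m) (u1 u2 : ℤ) : ℂ :=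
  G (u1 + 11 ^ 1 * (p.1.val : ℤ) * u2)
    (11 * rY11 1 p.1 p.2 * u1 + (1 + 11 ^ (1 + 1) * (p.1.val : ℤ) * rY11 1 p.1 p.2) * u2)

private lemma eW {m : ℕ} (p : Pt m) (u1 u2 v1 v2 : ℤ) :
    edge11 1 u1 u2 v1 v2 G p.1 p.2 = W G p u1 u2 - W G p v1 v2 := rfl

private lemma Wneg (hPlA : S11PlA) (hB : BalE (j + 2) G) (p : Pt (j + 1))
    (u1 u2 : ℤ) (hu : u1 ≠ 0 ∨ u2 ≠ 0) : W G p (-u1) (-u2) = W G p u1 u2 := by
  have h := nz (hPlA 1 (j + 1) (j + 1) p.1 p.2).1 hu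
  have e := homm hB.1.1 h
  unfold W
  have e1 : -u1 + 11 ^ 1 * (p.1.val : ℤ) * -u2 = -(1 * u1 + 11 ^ 1 * (p.1.val : ℤ) * u2) := by
    ring
  have e2 : 11 * rY11 1 p.1 p.2 * -u1 + (1 + 11 ^ (1 + 1) * (p.1.val : ℤ) * rY11 1 p.1 p.2) * -u2
      = -(11 * rY11 1 p.1 p.2 * u1 + (1 + 11 ^ (1 + 1) * (p.1.val : ℤ) * rY11 1 p.1 p.2) * u2) := by
    ring
  rw [e1, e2, e, one_mul]

/-- Path {3/2, 5/4}. -/
private lemma relN (hPlA : S11PlA) (hEdg : S11Edg) (hB : BalE (j + 2) G) (p : Pt (j + 1)) :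
    edge11 1 3 2 5 4 G (cN p).1 (cN p).2 = -1 * edge11 1 3 2 5 4 G p.1 p.2 := by
  refine (ciE hPlA hEdg hB (by norm_num) 3 2 (-5) (-4) (by norm_num) (by norm_num) p
    (by norm_num) (by norm_num) (by norm_num) (by norm_num)).trans ?_
  rw [eW, eW, Wneg hPlA hB p 5 4 (by norm_num)]
  ring

/-- Path {3, 5/2}. -/
private lemma relA (hPlA : S11PlA) (hEdg : S11Edg) (hB : BalE (j + 2) G) (p : Pt (j + 1)) :
    edge11 1 3 1 5 2 G (cA p).1 (cA p).2 = -1 * edge11 1 3 1 5 2 G p.1 p.2 := by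
  refine (ciE hPlA hEdg hB (by norm_num) 3 1 (-5) (-2) (by norm_num) (by norm_num) p
    (by norm_num) (by norm_num) (by norm_num) (by norm_num)).trans ?_
  rw [eW, eW, Wneg hPlA hB p 5 2 (by norm_num)]
  ring

/-- Path {2, 5/3}. -/
private lemma relB (hPlA : S11PlA) (hEdg : S11Edg) (hB : BalE (j + 2) G) (p : Pt (j + 1)) :
    edge11 1 2 1 5 3 G (cB p).1 (cB p).2 = -1 * edge11 1 2 1 5 3 G p.1 p.2 := by
  refine (ciE hPlA hEdg hB (by norm_num) 2 1 (-5) (-3) (by norm_num) (by norm_num) p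
    (by norm_num) (by norm_num) (by norm_num) (by norm_num)).trans ?_
  rw [eW, eW, Wneg hPlA hB p 5 3 (by norm_num)]
  ring

/-- Path {4, 10/3}. -/
private lemma relK (hPlA : S11PlA) (hEdg : S11Edg) (hB : BalE (j + 2) G) (p : Pt (j + 1)) :
    edge11 1 4 1 10 3 G (cK p).1 (cK p).2 = -1 * edge11 1 4 1 10 3 G p.1 p.2 := by
  refine (ciE hPlA hEdg hB (by norm_num) 4 1 (-10) (-3) (by norm_num) (by norm_num) p
    (by norm_num) (by norm_num) (by norm_num) (by norm_num)).trans ?_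
  rw [eW, eW, Wneg hPlA hB p 10 3 (by norm_num)]
  ring

/-- Path {9/2, 4}. -/
private lemma relC (hPlA : S11PlA) (hEdg : S11Edg) (hB : BalE (j + 2) G) (p : Pt (j + 1)) :
    edge11 1 9 2 4 1 G (rC p).1 (rC p).2 = 1 * edge11 1 9 2 4 1 G p.1 p.2 := by
  refine (riE hPlA hEdg hB (by norm_num) (-4) (-1) 9 2 (by norm_num) (by norm_num) p
    (by norm_num) (by norm_num) (by norm_num) (by norm_num)).trans ?_
  rw [eW, eW, Wneg hPlA hB p 4 1 (by norm_num)]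
  ring

/-- Path {7/2, 10/3}. -/
private lemma relD (hPlA : S11PlA) (hEdg : S11Edg) (hB : BalE (j + 2) G) (p : Pt (j + 1)) :
    edge11 1 7 2 10 3 G (rD p).1 (rD p).2 = 1 * edge11 1 7 2 10 3 G p.1 p.2 := by
  refine (riE hPlA hEdg hB (by norm_num) (-10) (-3) 7 2 (by norm_num) (by norm_num) p
    (by norm_num) (by norm_num) (by norm_num) (by norm_num)).trans ?_
  rw [eW, eW, Wneg hPlA hB p 10 3 (by norm_num)]
  ring

/-- The square `∞, 1, 0, -1`. -/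
private lemma rel0 (hPlA : S11PlA) (hEdg : S11Edg) (hB : BalE (j + 2) G) (p : Pt (j + 1)) :
    alt ng sw (fun p : Pt (j + 1) => edge11 1 1 0 1 1 G p.1 p.2) p = 0 := by
  change edge11 1 1 0 1 1 G p.1 p.2 + edge11 1 1 0 1 1 G (sw p).1 (sw p).2 -
    edge11 1 1 0 1 1 G (ng p).1 (ng p).2 - edge11 1 1 0 1 1 G (ng (sw p)).1 (ng (sw p)).2 = 0
  rw [ng_rw hPlA hEdg hB (by norm_num) (by norm_num) (sw p),
    ng_rw hPlA hEdg hB (by norm_num) (by norm_num) p,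
    sw_rw hPlA hEdg hB (u1 := 1) (by norm_num) (by norm_num) p,
    sw_rw hPlA hEdg hB (u1 := -1) (by norm_num) (by norm_num) p]
  have a1 := Wneg hPlA hB p 1 0 (by norm_num)
  have a2 := Wneg hPlA hB p 0 1 (by norm_num)
  have a3 := Wneg hPlA hB p (-1) 1 (by norm_num)
  rw [neg_zero] at a1 a2
  rw [neg_neg] at a3
  simp only [eW]
  rw [a1, a2, a3]
  ring

/-- Path {3/2, 1}. -/
private lemma relnn (hPlA : S11PlA) (hEdg : S11Edg) (hB : BalE (j + 2) G) (p : Pt (j + 1)) :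
    nnF (fun p : Pt (j + 1) => edge11 1 1 0 2 1 G p.1 p.2)
      (fun p : Pt (j + 1) => edge11 1 1 0 3 1 G p.1 p.2)
      (fun p : Pt (j + 1) => edge11 1 3 2 5 4 G p.1 p.2)
      (fun p : Pt (j + 1) => edge11 1 3 1 5 2 G p.1 p.2) p = edge11 1 3 2 1 1 G p.1 p.2 := by
  change edge11 1 3 2 5 4 G p.1 p.2 + edge11 1 1 0 2 1 G (gE p).1 (gE p).2 -
    edge11 1 1 0 3 1 G (gE p).1 (gE p).2 - edge11 1 3 1 5 2 G (gE p).1 (gE p).2 = _
  have h1 : edge11 1 1 0 2 1 G (gE p).1 (gE p).2 = -edge11 1 (-11) (-9) 5 4 G p.1 p.2 :=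
    riE hPlA hEdg hB (by norm_num) (-11) (-9) 5 4 (by norm_num) (by norm_num) p
      (by norm_num) (by norm_num) (by norm_num) (by norm_num)
  have h2 : edge11 1 1 0 3 1 G (gE p).1 (gE p).2 = -edge11 1 (-11) (-9) (-6) (-5) G p.1 p.2 :=
    riE hPlA hEdg hB (by norm_num) (-11) (-9) (-6) (-5) (by norm_num) (by norm_num) p
      (by norm_num) (by norm_num) (by norm_num) (by norm_num)
  have h3 : edge11 1 3 1 5 2 G (gE p).1 (gE p).2 = -edge11 1 (-6) (-5) (-1) (-1) G p.1 p.2 :=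
    riE hPlA hEdg hB (by norm_num) (-6) (-5) (-1) (-1) (by norm_num) (by norm_num) p
      (by norm_num) (by norm_num) (by norm_num) (by norm_num)
  rw [h1, h2, h3]
  simp only [eW]
  rw [Wneg hPlA hB p 1 1 (by norm_num)]
  ring

/-- Path {5/3, 3/2}. -/
private lemma relbb (hPlA : S11PlA) (hEdg : S11Edg) (hB : BalE (j + 2) G) (p : Pt (j + 1)) :
    bbF (fun p : Pt (j + 1) => edge11 1 1 0 1 1 G p.1 p.2)
      (fun p : Pt (j + 1) => edge11 1 1 0 2 1 G p.1 p.2)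
      (fun p : Pt (j + 1) => edge11 1 1 0 3 1 G p.1 p.2)
      (fun p : Pt (j + 1) => edge11 1 3 2 5 4 G p.1 p.2)
      (fun p : Pt (j + 1) => edge11 1 3 1 5 2 G p.1 p.2)
      (fun p : Pt (j + 1) => edge11 1 2 1 5 3 G p.1 p.2) p = edge11 1 5 3 3 2 G p.1 p.2 := by
  unfold bbF
  rw [relnn hPlA hEdg hB p]
  simp only [eW]
  ring

/-- Path {∞, 5}. -/
private lemma relss (hPlA : S11PlA) (hEdg : S11Edg) (hB : BalE (j + 2) G) (p : Pt (j + 1)) :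
    ssF (fun p : Pt (j + 1) => edge11 1 1 0 1 1 G p.1 p.2)
      (fun p : Pt (j + 1) => edge11 1 1 0 2 1 G p.1 p.2)
      (fun p : Pt (j + 1) => edge11 1 1 0 3 1 G p.1 p.2)
      (fun p : Pt (j + 1) => edge11 1 3 2 5 4 G p.1 p.2)
      (fun p : Pt (j + 1) => edge11 1 3 1 5 2 G p.1 p.2)
      (fun p : Pt (j + 1) => edge11 1 2 1 5 3 G p.1 p.2)
      (fun p : Pt (j + 1) => edge11 1 9 2 4 1 G p.1 p.2)
      (fun p : Pt (j + 1) => edge11 1 4 1 10 3 G p.1 p.2)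
      (fun p : Pt (j + 1) => edge11 1 7 2 10 3 G p.1 p.2) p = edge11 1 1 0 5 1 G p.1 p.2 := by
  unfold ssF
  rw [relbb hPlA hEdg hB (gF p)]
  have h1 : edge11 1 5 3 3 2 G (gF p).1 (gF p).2 = -edge11 1 (-9) (-2) 5 1 G p.1 p.2 :=
    riE hPlA hEdg hB (by norm_num) (-9) (-2) 5 1 (by norm_num) (by norm_num) p
      (by norm_num) (by norm_num) (by norm_num) (by norm_num)
  have h2 : edge11 1 7 2 10 3 G (gD p).1 (gD p).2 = edge11 1 (-10) (-3) 3 1 G p.1 p.2 :=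
    rgE hPlA hEdg hB (by norm_num) (-10) (-3) 3 1 (by norm_num) (by norm_num) p
      (by norm_num) (by norm_num) (by norm_num) (by norm_num)
  rw [h1]
  beta_reduce
  rw [h2]
  simp only [eW]
  rw [Wneg hPlA hB p 9 2 (by norm_num), Wneg hPlA hB p 10 3 (by norm_num)]
  ring

/-- The square `∞, 5, 11/2, 6`. -/
private lemma rel5 (hPlA : S11PlA) (hEdg : S11Edg) (hB : BalE (j + 2) G) (p : Pt (j + 1)) :
    edge11 1 1 0 5 1 G p.1 p.2 + edge11 1 1 0 5 1 G (c5 p).1 (c5 p).2 -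
    edge11 1 1 0 5 1 G (dR 1 p).1 (dR 1 p).2 -
    edge11 1 1 0 5 1 G (dR 1 (c5 p)).1 (dR 1 (c5 p)).2 = 0 := by
  have hd : ∀ q : Pt (j + 1), edge11 1 1 0 5 1 G (dR 1 q).1 (dR 1 q).2 =
      edge11 1 (-1) 0 6 1 G q.1 q.2 := fun q =>
    rgE hPlA hEdg hB (by norm_num) (-1) 0 6 1 (by norm_num) (by norm_num) q
      (by norm_num) (by norm_num) (by norm_num) (by norm_num)
  have h1 : edge11 1 1 0 5 1 G (c5 p).1 (c5 p).2 = -edge11 1 11 2 (-5) (-1) G p.1 p.2 :=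
    ciE hPlA hEdg hB (by norm_num) 11 2 (-5) (-1) (by norm_num) (by norm_num) p
      (by norm_num) (by norm_num) (by norm_num) (by norm_num)
  have h2 : edge11 1 (-1) 0 6 1 G (c5 p).1 (c5 p).2 = -edge11 1 (-11) (-2) 6 1 G p.1 p.2 :=
    ciE hPlA hEdg hB (by norm_num) (-11) (-2) 6 1 (by norm_num) (by norm_num) p
      (by norm_num) (by norm_num) (by norm_num) (by norm_num)
  rw [hd p, hd (c5 p), h1, h2]
  have a1 := Wneg hPlA hB p 1 0 (by norm_num)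
  rw [neg_zero] at a1
  simp only [eW]
  rw [Wneg hPlA hB p 11 2 (by norm_num), Wneg hPlA hB p 5 1 (by norm_num), a1]
  ring

private lemma memE (hPlA : S11PlA) (hEdg : S11Edg) (hB : BalE (j + 2) G) :
    pf9 (j + 1) G ∈ subE (j + 1) := by
  refine ⟨⟨memA hPlA hEdg hB (by norm_num) (by norm_num), memA hPlA hEdg hB (by norm_num) (by norm_num),
      memA hPlA hEdg hB (by norm_num) (by norm_num),
      ⟨memA hPlA hEdg hB (by norm_num) (by norm_num), fun p => relN hPlA hEdg hB p⟩⟩,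
    ⟨⟨memA hPlA hEdg hB (by norm_num) (by norm_num), fun p => relA hPlA hEdg hB p⟩,
      ⟨memA hPlA hEdg hB (by norm_num) (by norm_num), fun p => relB hPlA hEdg hB p⟩,
      ⟨memA hPlA hEdg hB (by norm_num) (by norm_num), fun p => relC hPlA hEdg hB p⟩,
      ⟨memA hPlA hEdg hB (by norm_num) (by norm_num), fun p => relK hPlA hEdg hB p⟩,
      ⟨memA hPlA hEdg hB (by norm_num) (by norm_num), fun p => relD hPlA hEdg hB p⟩⟩,
    fun p => rel0 hPlA hEdg hB p, fun p => ?_⟩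
  change ssF (fun p : Pt (j + 1) => edge11 1 1 0 1 1 G p.1 p.2)
      (fun p : Pt (j + 1) => edge11 1 1 0 2 1 G p.1 p.2)
      (fun p : Pt (j + 1) => edge11 1 1 0 3 1 G p.1 p.2)
      (fun p : Pt (j + 1) => edge11 1 3 2 5 4 G p.1 p.2)
      (fun p : Pt (j + 1) => edge11 1 3 1 5 2 G p.1 p.2)
      (fun p : Pt (j + 1) => edge11 1 2 1 5 3 G p.1 p.2)
      (fun p : Pt (j + 1) => edge11 1 9 2 4 1 G p.1 p.2)
      (fun p : Pt (j + 1) => edge11 1 4 1 10 3 G p.1 p.2)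
      (fun p : Pt (j + 1) => edge11 1 7 2 10 3 G p.1 p.2) p +
    ssF (fun p : Pt (j + 1) => edge11 1 1 0 1 1 G p.1 p.2)
      (fun p : Pt (j + 1) => edge11 1 1 0 2 1 G p.1 p.2)
      (fun p : Pt (j + 1) => edge11 1 1 0 3 1 G p.1 p.2)
      (fun p : Pt (j + 1) => edge11 1 3 2 5 4 G p.1 p.2)
      (fun p : Pt (j + 1) => edge11 1 3 1 5 2 G p.1 p.2)
      (fun p : Pt (j + 1) => edge11 1 2 1 5 3 G p.1 p.2)
      (fun p : Pt (j + 1) => edge11 1 9 2 4 1 G p.1 p.2)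
      (fun p : Pt (j + 1) => edge11 1 4 1 10 3 G p.1 p.2)
      (fun p : Pt (j + 1) => edge11 1 7 2 10 3 G p.1 p.2) (c5 p) -
    ssF (fun p : Pt (j + 1) => edge11 1 1 0 1 1 G p.1 p.2)
      (fun p : Pt (j + 1) => edge11 1 1 0 2 1 G p.1 p.2)
      (fun p : Pt (j + 1) => edge11 1 1 0 3 1 G p.1 p.2)
      (fun p : Pt (j + 1) => edge11 1 3 2 5 4 G p.1 p.2)
      (fun p : Pt (j + 1) => edge11 1 3 1 5 2 G p.1 p.2)
      (fun p : Pt (j + 1) => edge11 1 2 1 5 3 G p.1 p.2)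
      (fun p : Pt (j + 1) => edge11 1 9 2 4 1 G p.1 p.2)
      (fun p : Pt (j + 1) => edge11 1 4 1 10 3 G p.1 p.2)
      (fun p : Pt (j + 1) => edge11 1 7 2 10 3 G p.1 p.2) (dR 1 p) -
    ssF (fun p : Pt (j + 1) => edge11 1 1 0 1 1 G p.1 p.2)
      (fun p : Pt (j + 1) => edge11 1 1 0 2 1 G p.1 p.2)
      (fun p : Pt (j + 1) => edge11 1 1 0 3 1 G p.1 p.2)
      (fun p : Pt (j + 1) => edge11 1 3 2 5 4 G p.1 p.2)
      (fun p : Pt (j + 1) => edge11 1 3 1 5 2 G p.1 p.2)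
      (fun p : Pt (j + 1) => edge11 1 2 1 5 3 G p.1 p.2)
      (fun p : Pt (j + 1) => edge11 1 9 2 4 1 G p.1 p.2)
      (fun p : Pt (j + 1) => edge11 1 4 1 10 3 G p.1 p.2)
      (fun p : Pt (j + 1) => edge11 1 7 2 10 3 G p.1 p.2) (dR 1 (c5 p)) = 0
  rw [relss hPlA hEdg hB p, relss hPlA hEdg hB (c5 p), relss hPlA hEdg hB (dR 1 p),
    relss hPlA hEdg hB (dR 1 (c5 p))]
  exact rel5 hPlA hEdg hB p

end

/-- Module E1A of the levels `11^n`. -/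
theorem hE1A : StHE1a := by
  intro he ha _ k G hk hB
  obtain ⟨j, rfl⟩ : ∃ j, k = j + 2 := ⟨k - 2, by omega⟩
  exact memE ha he hB

end Pool.Agent.Helper53.P11
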